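import Pool.Agent.Run7.h664.NL.Iface

/-! Project NL, piece QR2 (helper484): quasi-roots with two commuting elements. -/

set_option autoImplicit false

namespace Run7.h484.NL

open commutatorElement Filter Topology Pool.Agent.V11106

variable {G : Type*} [Group G] [TopologicalSpace G] [IsTopologicalGroup G]

theorem qr_of_comm {a b : G} (h : Commute a b) : QR a 0 b := by
  refine ⟨fun _ => 1, fun _ => one_mem _, tendsto_const_nhds, Eventually.of_forall fun n => ?_⟩
  rw [q_comm_one_right, one_pow, commutatorElement_eq_one_iff_commute.2 h, map_one]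

theorem qr2 {z : Fin 2 → G} (hz : ∀ i j, Commute (z i) (z j))
    (hgen : Subgroup.closure (Set.range z ∪ {c | Rooted c}) = (⊤ : Subgroup G)) :
    ∀ (m : ℕ) (u : G), u ∈ LC G m → ∀ i, QR (z i) m u := by
  intro m
  induction m with
  | zero =>
    intro u _ i
    have hu : u ∈ Subgroup.closure (Set.range z ∪ {c : G | Rooted c}) := by
      rw [hgen]; exact Subgroup.mem_top u
    induction hu using Subgroup.closure_induction with
    | mem x hx =>
      rcases hx with ⟨j, rfl⟩ | hx
      · exact qr_of_comm (hz i j)
      · obtain ⟨f, hf, hf2⟩ := hx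
        refine ⟨f, fun _ => Subgroup.mem_top _, hf, ?_⟩
        filter_upwards [hf2] with n hn
        rw [← q_comm_pow_right (Subgroup.mem_top (f n)) (z i) n, hn]
    | one => exact QR.one (z i) 0
    | mul x y _ _ hx hy =>
      exact QR.mul (Subgroup.mem_top x) (Subgroup.mem_top y) (hx (Subgroup.mem_top _))
        (hy (Subgroup.mem_top _))
    | inv x _ hx => exact QR.inv (Subgroup.mem_top x) (hx (Subgroup.mem_top _))
  | succ m ihm =>
    -- first: commutators
    have key : ∀ (p : G), p ∈ LC G m → ∀ g : G, ∀ i, QR (z i) (m + 1) ⁅g, p⁆ := by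
      intro p hp g i
      have hg : g ∈ Subgroup.closure (Set.range z ∪ {c : G | Rooted c}) := by
        rw [hgen]; exact Subgroup.mem_top g
      induction hg using Subgroup.closure_induction with
      | mem x hx =>
        rcases hx with ⟨j, rfl⟩ | hx
        · obtain ⟨f, hf, hf1, hf2⟩ := ihm p hp j
          refine ⟨fun n => ⁅z j, f n⁆, fun n => comm_mem (hf n) (z j), ?_, ?_⟩
          · have := tendsto_comm (z j) hf1
            simpa [commutatorElement_def] using this
          · filter_upwards [hf2] with n hn
            rw [← q_comm_pow_right (comm_mem (hf n) (z j)) (z i) n]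
            refine q_comm_congr (comm_mem hp (z j)) ?_ (z i)
            rw [map_pow]; exact hn
        · obtain ⟨f, hf, hf2⟩ := hx
          refine ⟨fun n => ⁅f n, p⁆, fun n => comm_mem hp (f n), ?_, ?_⟩
          · have := tendsto_comm' p hf
            simpa [commutatorElement_def] using this
          · filter_upwards [hf2] with n hn
            rw [← q_comm_pow_right (comm_mem hp (f n)) (z i) n]
            refine q_comm_congr (comm_mem hp x) ?_ (z i)
            rw [map_pow, ← q_comm_pow_left hp, hn]
      | one =>
        have : ⁅(1 : G), p⁆ = 1 := by simp [commutatorElement_def]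
        rw [this]; exact QR.one (z i) _
      | mul x y _ _ hx hy =>
        refine QR.congr (mul_mem (comm_mem hp x) (comm_mem hp y)) ?_
          (QR.mul (comm_mem hp x) (comm_mem hp y) hx hy)
        rw [q_comm_mul_left hp, map_mul]
      | inv x _ hx =>
        refine QR.congr (inv_mem (comm_mem hp x)) ?_ (QR.inv (comm_mem hp x) hx)
        rw [q_comm_inv_left hp, map_inv]
    intro u hu i
    have hu' : u ∈ Subgroup.closure {x | ∃ p ∈ LC G m, ∃ g ∈ (⊤ : Subgroup G), ⁅p, g⁆ = x} :=
      (Subgroup.mem_lowerCentralSeries_succ_iff (⊤ : Subgroup G) m u).1 hu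
    have hle : Subgroup.closure {x | ∃ p ∈ LC G m, ∃ g ∈ (⊤ : Subgroup G), ⁅p, g⁆ = x} =
      LC G (m + 1) := rfl
    clear hu
    induction hu' using Subgroup.closure_induction with
    | mem x hx =>
      obtain ⟨p, hp, g, -, rfl⟩ := hx
      have h := QR.inv (comm_mem hp g) (key p hp g i)
      rwa [commutatorElement_inv] at h
    | one => exact QR.one (z i) _
    | mul x y hx hy h1 h2 => exact QR.mul (hle ▸ hx) (hle ▸ hy) h1 h2
    | inv x hx h1 => exact QR.inv (hle ▸ hx) h1

theorem t_QR2 : Run7.h664.NL.S_QR2 := by
  intro G _ _ _ z₁ z₂ hc hgen m u hu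
  have hz : ∀ i j : Fin 2, Commute (![z₁, z₂] i) (![z₁, z₂] j) := by
    intro i j
    fin_cases i <;> fin_cases j <;> simp [Commute.refl, hc, hc.symm]
  have hr : Set.range ![z₁, z₂] = {z₁, z₂} := by simp [Matrix.range_cons, Set.pair_comm]
  have h := qr2 hz (by rw [hr]; exact hgen) m u hu
  exact ⟨h 0, h 1⟩

end Run7.h484.NL
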