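import Pool.Agent.Run7.h484.NL.GP2
import Pool.Agent.Run7.h484.NL.QR2

/-! Project NL, piece GP (helper484): the theorem of Green and Parry, minimality from characters. -/

set_option autoImplicit false

namespace Run7.h484.NL

open commutatorElement Filter Topology Pool.Agent.V11106 Run7.h664.NL

theorem t_GP : S_GP := by
  intro h1 h2 h3 G _ _ _ _ _ Λ hΛ K hK hG z₁ z₂ hc hgen hchar M hM hI
  have hall : ∀ r : ℕ, ∀ M : Set G, M.Nonempty → Inv z₁ z₂ (PP Λ r) M → M = Set.univ := by
    intro r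
    induction r with
    | zero =>
      rintro M ⟨x, hx⟩ hI
      rw [Set.eq_univ_iff_forall]
      intro g
      have h4 := hI.right x hx (x⁻¹ * g) (le_PP_left Λ 0 (Subgroup.mem_top _))
      rwa [mul_inv_cancel_left] at h4
    | succ r ih =>
      intro M hM hI
      by_contra hMu
      obtain ⟨f, χ, hf, hf1, hf2, hf3, hf4, p, hp, hχ⟩ := h1 G Λ K hK hG z₁ z₂ r ih M hM hI hMu
      obtain ⟨η, hη, hη2⟩ := h2 h3 G Λ K hK hG z₁ z₂ hc hgen r ih f χ hf hf1 hf2 hf3 hf4
      have hη1 : ∀ v, f v = f 1 → η v = 1 := by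
        intro v hv
        have h5 := hη2 v 1
        rw [mul_one, hv] at h5
        exact mul_eq_right.1 h5.symm
      have hη0 : η = 1 := by
        refine hchar η hη (fun l hl => hη1 l ?_) (hη1 z₁ ?_) (hη1 z₂ ?_)
        · have := hf3 1 l (le_PP Λ (r + 1) hl)
          rwa [one_mul] at this
        · have := hf1 1
          rwa [mul_one] at this
        · have := hf2 1
          rwa [mul_one] at this
      have hconst : ∀ v, f v = f 1 := by
        intro v
        have h5 := hη2 v 1
        rwa [mul_one, hη0, MonoidHom.one_apply, one_mul] at h5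
      apply hχ
      have h6 := hf4 1 p hp
      rw [one_mul, hconst p] at h6
      exact mul_eq_right.1 h6.symm
  obtain ⟨n, hn⟩ := Subgroup.nilpotent_iff_lowerCentralSeries.1 (inferInstance : Group.IsNilpotent G)
  refine hall n M hM ?_
  have h7 : PP Λ n = Λ := by
    unfold PP
    have h8 : LC G n ⊔ Λ = Λ := by
      have : LC G n = ⊥ := hn
      rw [this, bot_sup_eq]
    rw [h8]
    exact SetLike.coe_injective (by
      rw [Subgroup.topologicalClosure_coe]
      exact hΛ.closure_eq)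
  rw [h7]
  exact hI

/-- with the pieces QR2, GP1 and GP2 filled in -/
theorem green_parry (G : Type) [Group G] [TopologicalSpace G] [IsTopologicalGroup G]
    [T2Space G] [Group.IsNilpotent G]
    (Λ : Subgroup G) (hΛ : IsClosed (Λ : Set G))
    (K : Set G) (hK : IsCompact K) (hG : ∀ g : G, ∃ a ∈ K, ∃ l ∈ Λ, g = a * l)
    (z₁ z₂ : G) (hc : Commute z₁ z₂)
    (hgen : Subgroup.closure ({z₁, z₂} ∪ {c : G | Pool.Agent.V11106.Rooted c}) = ⊤)
    (hχ : ∀ χ : G →* Circle, Continuous χ → (∀ l ∈ Λ, χ l = 1) → χ z₁ = 1 → χ z₂ = 1 → χ = 1)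
    (M : Set G) (hM : M.Nonempty) (hI : Inv z₁ z₂ Λ M) : M = Set.univ :=
  t_GP t_GP1 t_GP2 t_QR2 G Λ hΛ K hK hG z₁ z₂ hc hgen hχ M hM hI

end Run7.h484.NL
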