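import Pool.Agent.Run7.h664.NL.Iface
import Pool.Agent.Helper472.Lat_Chars

/-! Project NL, piece GP1 (helper484): an eigenfunction from a proper minimal set. -/

set_option autoImplicit false

namespace Run7.h484.NL

open commutatorElement Filter Topology Pool.Agent.V11106 Run7.h664.NL
open scoped Pointwise

section PPfacts

variable {G : Type*} [Group G] [TopologicalSpace G] [IsTopologicalGroup G]

theorem PP_closed (Λ : Subgroup G) (r : ℕ) : IsClosed (PP Λ r : Set G) :=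
  Subgroup.isClosed_topologicalClosure _

theorem le_PP_left (Λ : Subgroup G) (r : ℕ) : LC G r ≤ PP Λ r :=
  le_sup_left.trans (Subgroup.le_topologicalClosure _)

theorem le_PP (Λ : Subgroup G) (r : ℕ) : Λ ≤ PP Λ r :=
  le_sup_right.trans (Subgroup.le_topologicalClosure _)

theorem PP_anti (Λ : Subgroup G) (r : ℕ) : PP Λ (r + 1) ≤ PP Λ r :=
  Subgroup.topologicalClosure_mono (sup_le_sup_right (LC_anti (Nat.le_succ r)) Λ)

theorem comm_central {Q : Type*} [Group Q] {a b c d : Q} (ha : ∀ g, g * a = a * g)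
    (hc : ∀ g, g * c = c * g) : ⁅a * b, c * d⁆ = ⁅b, d⁆ := by
  have hc' : ∀ g, g * c⁻¹ = c⁻¹ * g := fun g => by
    rw [mul_inv_eq_iff_eq_mul, mul_assoc, hc g, inv_mul_cancel_left]
  rw [commutatorElement_def, commutatorElement_def]
  calc a * b * (c * d) * (a * b)⁻¹ * (c * d)⁻¹
      = a * (b * (c * d) * b⁻¹) * a⁻¹ * (d⁻¹ * c⁻¹) := by group
    _ = (b * (c * d) * b⁻¹) * (d⁻¹ * c⁻¹) := by
        rw [← ha, mul_inv_cancel_right]
    _ = (b * c) * d * b⁻¹ * (d⁻¹ * c⁻¹) := by group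
    _ = c * b * d * b⁻¹ * (c⁻¹ * d⁻¹) := by rw [hc b, hc' d⁻¹]
    _ = c * (b * d * b⁻¹ * c⁻¹) * d⁻¹ := by group
    _ = b * d * b⁻¹ * d⁻¹ := by rw [hc', mul_inv_cancel_left]

omit [TopologicalSpace G] [IsTopologicalGroup G] in
theorem comm_sup {Λ : Subgroup G} {r : ℕ} {x y : G} (hx : x ∈ LC G r ⊔ Λ) (hy : y ∈ LC G r ⊔ Λ) :
    ⁅x, y⁆ ∈ LC G (r + 1) ⊔ Λ := by
  obtain ⟨a, ha, b, hb, rfl⟩ := Subgroup.mem_sup_of_normal_left.1 hx
  obtain ⟨c, hc, d, hd, rfl⟩ := Subgroup.mem_sup_of_normal_left.1 hy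
  have h1 : q (r + 1) ⁅a * b, c * d⁆ = q (r + 1) ⁅b, d⁆ := by
    rw [map_commutatorElement, map_commutatorElement, map_mul, map_mul]
    refine comm_central (fun g => ?_) (fun g => ?_)
    · obtain ⟨g, rfl⟩ := QuotientGroup.mk'_surjective _ g
      exact q_comm ha g
    · obtain ⟨g, rfl⟩ := QuotientGroup.mk'_surjective _ g
      exact q_comm hc g
  have h2 := q_eq.1 h1
  have h3 : ⁅a * b, c * d⁆ = (⁅a * b, c * d⁆ * ⁅b, d⁆⁻¹) * ⁅b, d⁆ := by group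
  rw [h3]
  refine mul_mem (Subgroup.mem_sup_left h2) (Subgroup.mem_sup_right ?_)
  rw [commutatorElement_def]
  exact mul_mem (mul_mem (mul_mem hb hd) (inv_mem hb)) (inv_mem hd)

theorem comm_PP {Λ : Subgroup G} {r : ℕ} {x y : G} (hx : x ∈ PP Λ r) (hy : y ∈ PP Λ r) :
    ⁅x, y⁆ ∈ PP Λ (r + 1) := by
  have hc : Continuous (Function.uncurry fun x y : G => ⁅x, y⁆) := by
    have : (Function.uncurry fun x y : G => ⁅x, y⁆) = fun p : G × G =>
        p.1 * p.2 * p.1⁻¹ * p.2⁻¹ := by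
      funext p; rfl
    rw [this]
    fun_prop
  exact map_mem_closure₂ hc hx hy fun a ha b hb => comm_sup ha hb

theorem conj_PP {Λ : Subgroup G} {r : ℕ} {p q : G} (hp : p ∈ PP Λ r) (hq : q ∈ PP Λ (r + 1)) :
    p * q * p⁻¹ ∈ PP Λ (r + 1) := by
  have h : p * q * p⁻¹ = ⁅p, q⁆ * q := by rw [commutatorElement_def]; group
  rw [h]
  exact mul_mem (comm_PP hp (PP_anti _ _ hq)) hq

end PPfacts

section inv

variable {G : Type*} [Group G] [TopologicalSpace G] [IsTopologicalGroup G]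

theorem Inv.tr {z₁ z₂ : G} {Q : Subgroup G} {E : Set G} (h : Inv z₁ z₂ Q E) {p : G}
    (hp : ∀ q ∈ Q, p * q * p⁻¹ ∈ Q) : Inv z₁ z₂ Q {g | g * p⁻¹ ∈ E} := by
  refine ⟨h.closed.preimage (by fun_prop), ?_, ?_, ?_⟩
  · intro m hm q hq
    have h1 := h.right _ hm _ (hp q hq)
    have h2 : m * p⁻¹ * (p * q * p⁻¹) = m * q * p⁻¹ := by group
    rw [h2] at h1
    exact h1
  · intro m hm
    have h1 := h.left1 _ hm
    rw [← mul_assoc, ← mul_assoc] at h1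
    exact h1
  · intro m hm
    have h1 := h.left2 _ hm
    rw [← mul_assoc, ← mul_assoc] at h1
    exact h1

theorem Inv.inter {z₁ z₂ : G} {Q : Subgroup G} {E F : Set G} (h : Inv z₁ z₂ Q E)
    (h' : Inv z₁ z₂ Q F) : Inv z₁ z₂ Q (E ∩ F) :=
  ⟨h.closed.inter h'.closed, fun m hm q hq => ⟨h.right m hm.1 q hq, h'.right m hm.2 q hq⟩,
    fun m hm => ⟨⟨(h.left1 m hm.1).1, (h'.left1 m hm.2).1⟩, (h.left1 m hm.1).2, (h'.left1 m hm.2).2⟩,
    fun m hm => ⟨⟨(h.left2 m hm.1).1, (h'.left2 m hm.2).1⟩, (h.left2 m hm.1).2, (h'.left2 m hm.2).2⟩⟩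

theorem Inv.sInter {z₁ z₂ : G} {Q : Subgroup G} {c : Set (Set G)} (h : ∀ E ∈ c, Inv z₁ z₂ Q E) :
    Inv z₁ z₂ Q (⋂₀ c) :=
  ⟨isClosed_sInter fun E hE => (h E hE).closed,
    fun m hm q hq E hE => (h E hE).right m (hm E hE) q hq,
    fun m hm => ⟨fun E hE => ((h E hE).left1 m (hm E hE)).1, fun E hE => ((h E hE).left1 m (hm E hE)).2⟩,
    fun m hm => ⟨fun E hE => ((h E hE).left2 m (hm E hE)).1, fun E hE => ((h E hE).left2 m (hm E hE)).2⟩⟩

theorem exists_min [T2Space G] {z₁ z₂ : G} {Q Λ : Subgroup G} (hΛ : Λ ≤ Q) {K : Set G} (hK : IsCompact K)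
    (hG : ∀ g : G, ∃ a ∈ K, ∃ l ∈ Λ, g = a * l) {M : Set G} (hM : M.Nonempty)
    (hI : Inv z₁ z₂ Q M) : ∃ E ⊆ M, E.Nonempty ∧ Inv z₁ z₂ Q E ∧
      ∀ F ⊆ E, F.Nonempty → Inv z₁ z₂ Q F → F = E := by
  have hmeet : ∀ E : Set G, E.Nonempty → Inv z₁ z₂ Q E → (E ∩ K).Nonempty := by
    rintro E ⟨e, he⟩ hE
    obtain ⟨a, ha, l, hl, rfl⟩ := hG e
    refine ⟨a, ?_, ha⟩
    have := hE.right _ he l⁻¹ (inv_mem (hΛ hl))
    rwa [mul_inv_cancel_right] at this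
  obtain ⟨E, hEM, hE⟩ := zorn_superset_nonempty {E : Set G | E.Nonempty ∧ Inv z₁ z₂ Q E} (by
    intro c hc hch hcn
    refine ⟨⋂₀ c, ⟨?_, Inv.sInter fun E hE => (hc hE).2⟩, fun s hs => Set.sInter_subset_of_mem hs⟩
    have : Nonempty c := hcn.to_subtype
    have h1 : (⋂ i : c, ((i : Set G) ∩ K)).Nonempty := by
      refine IsCompact.nonempty_iInter_of_directed_nonempty_isCompact_isClosed _ ?_ ?_ ?_ ?_
      · rintro ⟨a, ha⟩ ⟨b, hb⟩
        rcases hch.total ha hb with h | h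
        · exact ⟨⟨a, ha⟩, subset_rfl, Set.inter_subset_inter_left _ h⟩
        · exact ⟨⟨b, hb⟩, Set.inter_subset_inter_left _ h, subset_rfl⟩
      · rintro ⟨a, ha⟩
        exact hmeet a (hc ha).1 (hc ha).2
      · rintro ⟨a, ha⟩
        exact hK.inter_left (hc ha).2.closed
      · rintro ⟨a, ha⟩
        exact (hc ha).2.closed.inter hK.isClosed
    obtain ⟨x, hx⟩ := h1
    refine ⟨x, fun s hs => ?_⟩
    exact (Set.mem_iInter.1 hx ⟨s, hs⟩).1) M ⟨hM, hI⟩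
  refine ⟨E, hEM, hE.prop.1, hE.prop.2, fun F hF hF1 hF2 => ?_⟩
  exact (hE.eq_of_superset ⟨hF1, hF2⟩ hF).symm

end inv


section main

variable {G : Type} [Group G] [TopologicalSpace G] [IsTopologicalGroup G] [T2Space G]

/-- the stabilizer of a minimal set in `P` -/
def SB (P : Subgroup G) (E : Set G) : Subgroup G where
  carrier := {p | p ∈ P ∧ ∀ e ∈ E, e * p ∈ E ∧ e * p⁻¹ ∈ E}
  mul_mem' := by
    rintro a b ⟨ha, ha2⟩ ⟨hb, hb2⟩
    refine ⟨mul_mem ha hb, fun e he => ⟨?_, ?_⟩⟩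
    · rw [← mul_assoc]
      exact (hb2 _ (ha2 e he).1).1
    · rw [mul_inv_rev, ← mul_assoc]
      exact (ha2 _ (hb2 e he).2).2
  one_mem' := ⟨one_mem _, fun e he => by simpa using he⟩
  inv_mem' := by
    rintro a ⟨ha, ha2⟩
    exact ⟨inv_mem ha, fun e he => ⟨(ha2 e he).2, by rw [inv_inv]; exact (ha2 e he).1⟩⟩

theorem SB_le (P : Subgroup G) (E : Set G) : SB P E ≤ P := fun _ h => h.1

theorem SB_closed {P : Subgroup G} (hP : IsClosed (P : Set G)) {E : Set G} (hE : IsClosed E) :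
    IsClosed (SB P E : Set G) := by
  have h : (SB P E : Set G) = (P : Set G) ∩ ⋂ e ∈ E, ({p | e * p ∈ E} ∩ {p | e * p⁻¹ ∈ E}) := by
    ext p
    simp only [Set.mem_inter_iff, Set.mem_iInter, Set.mem_setOf_eq, SetLike.mem_coe]
    rfl
  rw [h]
  refine hP.inter (isClosed_biInter fun e _ => ?_)
  exact (hE.preimage (by fun_prop)).inter (hE.preimage (by fun_prop))

/-- an abelian compact quotient of a closed group of the form `compact * B` has characters -/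
theorem exists_char {P B : Subgroup G} (hP : IsClosed (P : Set G)) (hB : IsClosed (B : Set G))
    (hcomm : ∀ x ∈ P, ∀ y ∈ P, ⁅x, y⁆ ∈ B) {K : Set G} (hK : IsCompact K)
    (hPK : ∀ p ∈ P, ∃ k ∈ K, k ∈ P ∧ ∃ b ∈ B, p = k * b) {p₀ : G} (hp₀ : p₀ ∈ P)
    (hp₀' : p₀ ∉ B) : ∃ χ : P →* Circle, Continuous χ ∧ (∀ b : P, (b : G) ∈ B → χ b = 1) ∧
      χ ⟨p₀, hp₀⟩ ≠ 1 := by
  let N : Subgroup P := B.subgroupOf P
  have hN : N.Normal := by
    constructor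
    intro n hn g
    have h1 : ((g * n * g⁻¹ : P) : G) = ⁅(g : G), (n : G)⁆ * n := by
      rw [commutatorElement_def]
      push_cast
      group
    rw [Subgroup.mem_subgroupOf, h1]
    exact mul_mem (hcomm _ g.2 _ n.2) hn
  letI : CommGroup (P ⧸ N) :=
    { (inferInstance : Group (P ⧸ N)) with
      mul_comm := by
        intro a b
        obtain ⟨a, rfl⟩ := QuotientGroup.mk'_surjective N a
        obtain ⟨b, rfl⟩ := QuotientGroup.mk'_surjective N b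
        rw [← map_mul, ← map_mul, QuotientGroup.mk'_apply, QuotientGroup.mk'_apply,
          QuotientGroup.eq]
        rw [Subgroup.mem_subgroupOf]
        have h1 : (((a * b)⁻¹ * (b * a) : P) : G) = ⁅((b : G))⁻¹, ((a : G))⁻¹⁆ := by
          rw [commutatorElement_def]
          push_cast
          group
        rw [h1]
        exact hcomm _ (inv_mem b.2) _ (inv_mem a.2) }
  have hNc : IsClosed (N : Set P) := hB.preimage continuous_subtype_val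
  haveI : IsClosed (N : Set P) := hNc
  haveI : T2Space (P ⧸ N) := inferInstance
  haveI : IsTopologicalGroup (P ⧸ N) := inferInstance
  have hcpt : CompactSpace (P ⧸ N) := by
    have h1 : IsCompact {p : P | (p : G) ∈ K} :=
      hP.isClosedEmbedding_subtypeVal.isCompact_preimage hK
    refine ⟨?_⟩
    have h2 : (Set.univ : Set (P ⧸ N)) = (QuotientGroup.mk : P → P ⧸ N) '' {p : P | (p : G) ∈ K} := by
      symm
      rw [Set.eq_univ_iff_forall]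
      intro x
      obtain ⟨p, rfl⟩ := QuotientGroup.mk_surjective x
      obtain ⟨k, hk, hkP, b, hb, hpk⟩ := hPK p p.2
      refine ⟨⟨k, hkP⟩, hk, ?_⟩
      rw [QuotientGroup.eq, Subgroup.mem_subgroupOf]
      have : (((⟨k, hkP⟩ : P)⁻¹ * p : P) : G) = b := by
        push_cast
        rw [hpk, inv_mul_cancel_left]
      rw [this]
      exact hb
    rw [h2]
    exact h1.image QuotientGroup.continuous_mk
  have hne : (QuotientGroup.mk ⟨p₀, hp₀⟩ : P ⧸ N) ≠ 1 := by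
    intro h
    rw [QuotientGroup.eq_one_iff, Subgroup.mem_subgroupOf] at h
    exact hp₀' h
  obtain ⟨χ, hχ⟩ := Pool.LatH472.chars (K := P ⧸ N) _ hne
  refine ⟨χ.toMonoidHom.comp (QuotientGroup.mk' N), ?_, ?_, ?_⟩
  · exact χ.continuous_toFun.comp QuotientGroup.continuous_mk
  · intro b hb
    have h1 : (QuotientGroup.mk' N) b = 1 := by
      rw [QuotientGroup.mk'_apply, QuotientGroup.eq_one_iff, Subgroup.mem_subgroupOf]
      exact hb
    rw [MonoidHom.comp_apply, h1, map_one]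
  · exact hχ

theorem gp1 (Λ : Subgroup G) {K : Set G} (hK : IsCompact K)
    (hG : ∀ g : G, ∃ a ∈ K, ∃ l ∈ Λ, g = a * l) (z₁ z₂ : G) (r : ℕ)
    (hr : ∀ M : Set G, M.Nonempty → Inv z₁ z₂ (PP Λ r) M → M = Set.univ)
    {M : Set G} (hM : M.Nonempty) (hI : Inv z₁ z₂ (PP Λ (r + 1)) M) (hMu : M ≠ Set.univ) :
    ∃ (f χ : G → Circle), Continuous f ∧ (∀ g, f (z₁ * g) = f g) ∧ (∀ g, f (z₂ * g) = f g) ∧
    (∀ g, ∀ q ∈ PP Λ (r + 1), f (g * q) = f g) ∧ (∀ g, ∀ p ∈ PP Λ r, f (g * p) = χ p * f g) ∧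
    ∃ p ∈ PP Λ r, χ p ≠ 1 := by
  classical
  set P := PP Λ r with hPdef
  set Q := PP Λ (r + 1) with hQdef
  have hPc : IsClosed (P : Set G) := PP_closed Λ r
  have hΛP : Λ ≤ P := le_PP Λ r
  have hΛQ : Λ ≤ Q := le_PP Λ (r + 1)
  have hQP : Q ≤ P := PP_anti Λ r
  obtain ⟨E, hEM, hE0, hE, hmin⟩ := exists_min hΛQ hK hG hM hI
  -- a translate of `E` meeting `E` is `E`
  have hB : ∀ p ∈ P, ∀ e ∈ E, e * p ∈ E → p ∈ SB P E := by
    intro p hp e he hep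
    have h1 : {g : G | g * p⁻¹ ∈ E} ∩ E = E := by
      refine hmin _ Set.inter_subset_right ⟨e * p, ?_, hep⟩
        (Inv.inter (Inv.tr hE fun q hq => conj_PP hp hq) hE)
      change e * p * p⁻¹ ∈ E
      rwa [mul_inv_cancel_right]
    have h2 : {g : G | g * p⁻¹⁻¹ ∈ E} ∩ E = E := by
      refine hmin _ Set.inter_subset_right ⟨e, ?_, he⟩
        (Inv.inter (Inv.tr hE fun q hq => conj_PP (inv_mem hp) hq) hE)
      change e * p⁻¹⁻¹ ∈ E
      rwa [inv_inv]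
    refine ⟨hp, fun x hx => ⟨?_, ?_⟩⟩
    · have h3 : x ∈ {g : G | g * p⁻¹⁻¹ ∈ E} ∩ E := by rw [h2]; exact hx
      have h4 : x * p⁻¹⁻¹ ∈ E := h3.1
      rwa [inv_inv] at h4
    · have h3 : x ∈ {g : G | g * p⁻¹ ∈ E} ∩ E := by rw [h1]; exact hx
      exact h3.1
  have hQB : Q ≤ SB P E := fun q hq =>
    ⟨hQP hq, fun e he => ⟨hE.right e he q hq, hE.right e he _ (inv_mem hq)⟩⟩
  -- moving the right factor into `K`
  have hPK : ∀ p ∈ P, ∃ k ∈ K, k ∈ P ∧ ∃ b ∈ Λ, p = k * b := by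
    intro p hp
    obtain ⟨k, hk, l, hl, rfl⟩ := hG p
    refine ⟨k, hk, ?_, l, hl, rfl⟩
    have := mul_mem hp (inv_mem (hΛP hl))
    rwa [mul_inv_cancel_right] at this
  have hclosed : ∀ S : Set G, IsClosed S → S ⊆ P → (∀ k ∈ P, ∀ b ∈ Λ, k * b ∈ S → k ∈ S) →
      IsClosed (E * S) := by
    intro S hS hSP hS2
    have h1 : E * S = E * (S ∩ K) := by
      refine Set.Subset.antisymm ?_ (Set.mul_subset_mul_left Set.inter_subset_left)
      rintro _ ⟨e, he, p, hp, rfl⟩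
      obtain ⟨k, hk, hkP, b, hb, rfl⟩ := hPK p (hSP hp)
      refine ⟨e * (k * b * k⁻¹), hE.right e he _ (conj_PP hkP (hΛQ hb)), k,
        ⟨hS2 k hkP b hb hp, hk⟩, ?_⟩
      group
    rw [h1]
    exact hE.closed.mul_right_of_isCompact (hK.inter_left hS)
  have huniv : E * (P : Set G) = Set.univ := by
    refine hr _ ?_ ⟨hclosed _ hPc subset_rfl fun k hk _ _ _ => hk, ?_, ?_, ?_⟩
    · obtain ⟨e, he⟩ := hE0
      exact ⟨e * 1, Set.mul_mem_mul he (one_mem P)⟩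
    · rintro _ ⟨e, he, p, hp, rfl⟩ q hq
      refine ⟨e, he, p * q, mul_mem (s := P) hp hq, ?_⟩
      simp only [mul_assoc]
    · rintro _ ⟨e, he, p, hp, rfl⟩
      exact ⟨⟨z₁ * e, (hE.left1 e he).1, p, hp, by simp only [mul_assoc]⟩,
        ⟨z₁⁻¹ * e, (hE.left1 e he).2, p, hp, by simp only [mul_assoc]⟩⟩
    · rintro _ ⟨e, he, p, hp, rfl⟩
      exact ⟨⟨z₂ * e, (hE.left2 e he).1, p, hp, by simp only [mul_assoc]⟩,
        ⟨z₂⁻¹ * e, (hE.left2 e he).2, p, hp, by simp only [mul_assoc]⟩⟩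
  have hrep : ∀ g : G, ∃ e ∈ E, ∃ p ∈ P, e * p = g := by
    intro g
    have : g ∈ E * (P : Set G) := by rw [huniv]; trivial
    exact this
  obtain ⟨p₀, hp₀, hp₀'⟩ : ∃ p ∈ P, p ∉ SB P E := by
    by_contra hcon
    push Not at hcon
    apply hMu
    rw [Set.eq_univ_iff_forall]
    intro g
    obtain ⟨e, he, p, hp, rfl⟩ := hrep g
    exact hEM ((hcon p hp).2 e he).1
  obtain ⟨χ, hχc, hχB, hχ0⟩ := exists_char hPc (SB_closed hPc hE.closed)
    (fun x hx y hy => hQB (comm_PP hx hy)) hK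
    (fun p hp => by
      obtain ⟨k, hk, hkP, b, hb, h⟩ := hPK p hp
      exact ⟨k, hk, hkP, b, hQB (hΛQ hb), h⟩) hp₀ hp₀'
  -- the function
  choose ε hε π hπ hεπ using hrep
  have key : ∀ e ∈ E, ∀ (p : G) (hp : p ∈ P), χ ⟨π (e * p), hπ (e * p)⟩ = χ ⟨p, hp⟩ := by
    intro e he p hp
    have h1 : π (e * p) * p⁻¹ ∈ SB P E := by
      refine hB _ (mul_mem (hπ _) (inv_mem hp)) (ε (e * p)) (hε _) ?_
      rw [← mul_assoc, hεπ, mul_inv_cancel_right]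
      exact he
    have h2 : χ ((⟨π (e * p), hπ (e * p)⟩ : P) * (⟨p, hp⟩ : P)⁻¹) = 1 := hχB _ h1
    rw [map_mul, map_inv, mul_inv_eq_one] at h2
    exact h2
  let f : G → Circle := fun g => χ ⟨π g, hπ g⟩
  let X : G → Circle := fun g => if h : g ∈ P then χ ⟨g, h⟩ else 1
  have hfX : ∀ e ∈ E, ∀ (p : G) (hp : p ∈ P), f (e * p) = χ ⟨p, hp⟩ := key
  have hfg : ∀ g, f g = χ ⟨π g, hπ g⟩ := fun g => rfl
  refine ⟨f, X, ?_, ?_, ?_, ?_, ?_, p₀, hp₀, ?_⟩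
  · rw [continuous_iff_isClosed]
    intro T hT
    have h1 : f ⁻¹' T = E * (Subtype.val '' (χ ⁻¹' T)) := by
      ext g
      constructor
      · intro hg
        exact ⟨ε g, hε g, π g, ⟨⟨π g, hπ g⟩, hg, rfl⟩, hεπ g⟩
      · rintro ⟨e, he, _, ⟨p, hp, rfl⟩, rfl⟩
        change f (e * p) ∈ T
        rw [hfX e he p p.2]
        exact hp
    rw [h1]
    refine hclosed _ (hPc.isClosedEmbedding_subtypeVal.isClosedMap _ (hT.preimage hχc)) ?_ ?_
    · rintro _ ⟨p, -, rfl⟩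
      exact p.2
    · rintro k hk b hb ⟨p, hp, hpk⟩
      refine ⟨⟨k, hk⟩, ?_, rfl⟩
      have h2 : p = (⟨k, hk⟩ : P) * ⟨b, hΛP hb⟩ := Subtype.ext hpk
      have h3 : χ p = χ ⟨k, hk⟩ := by
        rw [h2, map_mul, hχB ⟨b, hΛP hb⟩ (hQB (hΛQ hb)), mul_one]
      change χ ⟨k, hk⟩ ∈ T
      rw [← h3]
      exact hp
  · intro g
    rw [hfg g, ← hfX (z₁ * ε g) (hE.left1 _ (hε g)).1, mul_assoc, hεπ]
  · intro g
    rw [hfg g, ← hfX (z₂ * ε g) (hE.left2 _ (hε g)).1, mul_assoc, hεπ]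
  · intro g q hq
    have h1 : g * q = ε g * (π g * q) := by rw [← mul_assoc, hεπ]
    rw [h1, hfX _ (hε g) _ (mul_mem (hπ g) (hQP hq)), hfg g]
    have h2 : (⟨π g * q, mul_mem (hπ g) (hQP hq)⟩ : P) = ⟨π g, hπ g⟩ * ⟨q, hQP hq⟩ := rfl
    rw [h2, map_mul, hχB ⟨q, hQP hq⟩ (hQB hq), mul_one]
  · intro g p hp
    have h1 : g * p = ε g * (π g * p) := by rw [← mul_assoc, hεπ]
    rw [h1, hfX _ (hε g) _ (mul_mem (hπ g) hp), hfg g]
    have h2 : (⟨π g * p, mul_mem (hπ g) hp⟩ : P) = ⟨π g, hπ g⟩ * ⟨p, hp⟩ := rfl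
    have h3 : X p = χ ⟨p, hp⟩ := dif_pos hp
    rw [h2, map_mul, h3, mul_comm]
  · have h3 : X p₀ = χ ⟨p₀, hp₀⟩ := dif_pos hp₀
    rw [h3]
    exact hχ0

end main

theorem t_GP1 : S_GP1 := by
  intro G _ _ _ _ Λ K hK hG z₁ z₂ r hr M hM hI hMu
  exact gp1 Λ hK hG z₁ z₂ r hr hM hI hMu

end Run7.h484.NL
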