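import Pool.Agent.Run7.h484.NL.GP1

/-! Project NL, piece GP2 (helper484): the eigenfunction is an eigenfunction of the whole group. -/

set_option autoImplicit false

namespace Run7.h484.NL

open commutatorElement Filter Topology Pool.Agent.V11106 Run7.h664.NL
open scoped Pointwise

theorem norm_circle (c : Circle) : ‖(c : ℂ)‖ = 1 := Circle.norm_coe c

theorem circ_pow {c : Circle} (h : ∀ n : ℕ, ‖((c ^ n : Circle) : ℂ) - 1‖ ≤ 1 / 2) : c = 1 := by
  have h1 : ∀ k : ℕ, (3 / 2 : ℝ) ^ k * ‖(c : ℂ) - 1‖ ≤ ‖((c ^ (2 ^ k) : Circle) : ℂ) - 1‖ := by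
    intro k
    induction k with
    | zero => simp
    | succ k ih =>
      have e1 : ((c ^ (2 ^ (k + 1)) : Circle) : ℂ) - 1 =
          (((c ^ (2 ^ k) : Circle) : ℂ) + 1) * (((c ^ (2 ^ k) : Circle) : ℂ) - 1) := by
        rw [pow_succ 2 k, pow_mul, Circle.coe_pow (c ^ 2 ^ k)]
        ring
      have e2 : (3 / 2 : ℝ) ≤ ‖((c ^ (2 ^ k) : Circle) : ℂ) + 1‖ := by
        have h3 : (2 : ℂ) = (((c ^ (2 ^ k) : Circle) : ℂ) + 1) -
            (((c ^ (2 ^ k) : Circle) : ℂ) - 1) := by ring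
        have h4 : ‖(2 : ℂ)‖ ≤ ‖((c ^ (2 ^ k) : Circle) : ℂ) + 1‖ +
            ‖((c ^ (2 ^ k) : Circle) : ℂ) - 1‖ := by
          conv_lhs => rw [h3]
          exact norm_sub_le _ _
        have h5 : ‖(2 : ℂ)‖ = 2 := by simp
        rw [h5] at h4
        have := h (2 ^ k)
        linarith
      rw [e1, norm_mul, pow_succ]
      calc (3 / 2 : ℝ) ^ k * (3 / 2) * ‖(c : ℂ) - 1‖ = 3 / 2 * ((3 / 2 : ℝ) ^ k * ‖(c : ℂ) - 1‖) := by ring
        _ ≤ _ := mul_le_mul e2 ih (by positivity) (norm_nonneg _)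
  by_contra hc
  have hpos : 0 < ‖(c : ℂ) - 1‖ := by
    rw [norm_pos_iff, sub_ne_zero]
    intro h2
    apply hc
    exact Circle.ext (by rw [h2]; simp)
  obtain ⟨k, hk⟩ := pow_unbounded_of_one_lt (1 / ‖(c : ℂ) - 1‖) (by norm_num : (1 : ℝ) < 3 / 2)
  have h2 := h1 k
  have h3 := h (2 ^ k)
  rw [div_lt_iff₀ hpos] at hk
  linarith

theorem circ_one {c a : Circle} (h : ∀ n : ℕ, ‖((c ^ n * a : Circle) : ℂ) - 1‖ ≤ 1 / 4) : c = 1 := by
  refine circ_pow fun n => ?_
  have h0 := h 0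
  have h1 := h n
  rw [pow_zero, one_mul] at h0
  have e : ‖((c ^ n : Circle) : ℂ) - 1‖ = ‖((c ^ n * a : Circle) : ℂ) - (a : ℂ)‖ := by
    have : ((c ^ n * a : Circle) : ℂ) - (a : ℂ) = (((c ^ n : Circle) : ℂ) - 1) * (a : ℂ) := by
      rw [Circle.coe_mul]; ring
    rw [this, norm_mul, norm_circle, mul_one]
  rw [e]
  have e2 : ((c ^ n * a : Circle) : ℂ) - (a : ℂ) =
      (((c ^ n * a : Circle) : ℂ) - 1) - ((a : ℂ) - 1) := by ring
  rw [e2]
  refine (norm_sub_le _ _).trans ?_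
  linarith

section main

variable {G : Type} [Group G] [TopologicalSpace G] [IsTopologicalGroup G]

/-- the periods of `f` -/
def TT (f : G → Circle) : Subgroup G where
  carrier := {v | ∀ g, f (v * g) = f g}
  mul_mem' := by
    intro a b ha hb g
    rw [mul_assoc, ha, hb]
  one_mem' := fun g => by rw [one_mul]
  inv_mem' := by
    intro a ha g
    have := ha (a⁻¹ * g)
    rw [mul_inv_cancel_left] at this
    exact this.symm

theorem mem_TT {f : G → Circle} {v : G} : v ∈ TT f ↔ ∀ g, f (v * g) = f g := Iff.rfl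

/-- `f (v g) = f v / f 1 * f g` -/
def VV (f : G → Circle) : Subgroup G where
  carrier := {v | ∀ g, f (v * g) = f v / f 1 * f g}
  mul_mem' := by
    intro a b ha hb g
    rw [mul_assoc, ha (b * g), hb g, ha b]
    simp only [div_eq_mul_inv]
    group
  one_mem' := fun g => by rw [one_mul, div_self', one_mul]
  inv_mem' := by
    intro a ha g
    have h1 := ha (a⁻¹ * g)
    have h2 := ha a⁻¹
    rw [mul_inv_cancel_left] at h1
    rw [mul_inv_cancel] at h2
    rw [h1]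
    have h3 : f a / f 1 * f a⁻¹ / f 1 = 1 := by rw [← h2, div_self']
    have h4 : f a⁻¹ / f 1 = (f a / f 1)⁻¹ := by
      rw [eq_inv_iff_mul_eq_one, mul_comm, ← h3, mul_div_assoc]
    rw [h4, inv_mul_cancel_left]

theorem mem_VV {f : G → Circle} {v : G} : v ∈ VV f ↔ ∀ g, f (v * g) = f v / f 1 * f g := Iff.rfl

/-- the character -/
noncomputable def ee (f : G → Circle) (v : G) : Circle := f v / f 1

theorem ee_mul {f : G → Circle} {v : G} (hv : v ∈ VV f) (w : G) :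
    ee f (v * w) = ee f v * ee f w := by
  unfold ee
  rw [hv w, mul_div_assoc]

theorem ee_one (f : G → Circle) : ee f 1 = 1 := div_self' _

theorem ee_inv {f : G → Circle} {v : G} (hv : v ∈ VV f) : ee f v⁻¹ = (ee f v)⁻¹ := by
  have := ee_mul hv v⁻¹
  rw [mul_inv_cancel, ee_one] at this
  exact eq_inv_of_mul_eq_one_right this.symm

theorem ee_pow {f : G → Circle} {v : G} (hv : v ∈ VV f) (n : ℕ) : ee f (v ^ n) = ee f v ^ n := by
  induction n with
  | zero => rw [pow_zero, pow_zero, ee_one]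
  | succ n ih => rw [pow_succ', ee_mul hv, ih, pow_succ']

theorem TT_le_VV (f : G → Circle) : TT f ≤ VV f := by
  intro v hv g
  have h1 := hv 1
  rw [mul_one] at h1
  rw [hv g, h1, div_self', one_mul]

theorem mem_TT_iff {f : G → Circle} {v : G} : v ∈ TT f ↔ v ∈ VV f ∧ ee f v = 1 := by
  constructor
  · intro h
    refine ⟨TT_le_VV f h, ?_⟩
    have h1 := h 1
    rw [mul_one] at h1
    rw [ee, h1, div_self']
  · rintro ⟨h1, h2⟩ g
    rw [h1 g]
    change ee f v * f g = f g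
    rw [h2, one_mul]

/-- uniform continuity of `f` modulo `Λ` -/
theorem exists_small [T2Space G] {Λ : Subgroup G} {K : Set G} (hK : IsCompact K)
    (hG : ∀ g : G, ∃ a ∈ K, ∃ l ∈ Λ, g = a * l) {f : G → Circle} (hf : Continuous f)
    (hΛ : ∀ g, ∀ l ∈ Λ, f (g * l) = f g) : ∃ U ∈ 𝓝 (1 : G), ∀ v ∈ U, ∀ g,
      ‖((f (v * g) / f g : Circle) : ℂ) - 1‖ ≤ 1 / 4 := by
  have hc : Continuous fun p : G × G => ‖((f (p.1 * p.2) / f p.2 : Circle) : ℂ) - 1‖ := by
    have h1 : Continuous fun p : G × G => (f (p.1 * p.2) / f p.2 : Circle) := by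
      simp only [div_eq_mul_inv]
      exact (hf.comp continuous_mul).mul (hf.comp continuous_snd).inv
    have h2 : Continuous fun p : G × G => ((f (p.1 * p.2) / f p.2 : Circle) : ℂ) :=
      continuous_subtype_val.comp h1
    exact (h2.sub continuous_const).norm
  have hopen : IsOpen {p : G × G | ‖((f (p.1 * p.2) / f p.2 : Circle) : ℂ) - 1‖ < 1 / 4} :=
    isOpen_lt hc continuous_const
  have hsub : ({1} : Set G) ×ˢ K ⊆
      {p : G × G | ‖((f (p.1 * p.2) / f p.2 : Circle) : ℂ) - 1‖ < 1 / 4} := by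
    rintro ⟨a, k⟩ ⟨ha, hk⟩
    have ha' : a = 1 := ha
    subst ha'
    change ‖((f (1 * k) / f k : Circle) : ℂ) - 1‖ < 1 / 4
    rw [one_mul, div_self']
    simp
  obtain ⟨u, w, hu, hw, hu1, hKw, huw⟩ := generalized_tube_lemma isCompact_singleton hK hopen hsub
  refine ⟨u, hu.mem_nhds (hu1 rfl), fun v hv g => ?_⟩
  obtain ⟨a, ha, l, hl, rfl⟩ := hG g
  rw [← mul_assoc, hΛ _ l hl, hΛ _ l hl]
  exact (huw (Set.mk_mem_prod hv (hKw ha))).le

/-- one step of the downward induction -/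
theorem gp2_step [T2Space G] {Λ : Subgroup G} {K : Set G} (hK : IsCompact K)
    (hG : ∀ g : G, ∃ a ∈ K, ∃ l ∈ Λ, g = a * l) {z₁ z₂ : G}
    (hgen : Subgroup.closure ({z₁, z₂} ∪ {c : G | Rooted c}) = ⊤)
    (hqr : ∀ (m : ℕ) (u : G), u ∈ LC G m → QR z₁ m u ∧ QR z₂ m u) {r : ℕ}
    (hr : ∀ M : Set G, M.Nonempty → Inv z₁ z₂ (PP Λ r) M → M = Set.univ)
    {f χ : G → Circle} (hf : Continuous f) (hf1 : ∀ g, f (z₁ * g) = f g)
    (hf2 : ∀ g, f (z₂ * g) = f g) (hf3 : ∀ g, ∀ q ∈ PP Λ (r + 1), f (g * q) = f g)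
    (hf4 : ∀ g, ∀ p ∈ PP Λ r, f (g * p) = χ p * f g) (m : ℕ)
    (ih : ∀ v ∈ LC G (m + 1), v ∈ VV f ∧ ∀ g : G, ⁅g, v⁆ ∈ TT f) :
    ∀ v ∈ LC G m, v ∈ VV f ∧ ∀ g : G, ⁅g, v⁆ ∈ TT f := by
  obtain ⟨U, hU, hUf⟩ := exists_small hK hG hf fun g l hl => hf3 g l (le_PP Λ (r + 1) hl)
  have hT2 : LC G (m + 2) ≤ TT f := by
    have h1 : LC G (m + 2) = ⁅LC G (m + 1), (⊤ : Subgroup G)⁆ := rfl
    rw [h1, Subgroup.commutator_le]
    intro p hp g _
    have h2 := (ih p hp).2 g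
    rw [← commutatorElement_inv]
    exact inv_mem h2
  have hV1 : LC G (m + 1) ≤ VV f := fun v hv => (ih v hv).1
  -- the first part, for `z`
  have hz : ∀ z, (∀ g, f (z * g) = f g) → (∀ u ∈ LC G m, QR z m u) → ∀ v ∈ LC G m,
      ee f ⁅v, z⁆ = 1 := by
    intro z hzf hzq
    have hsmall : ∀ v ∈ LC G m, v ∈ U → ee f ⁅v, z⁆ = 1 := by
      intro v hv hvU
      have hstep : ∀ g, f (v * (z * g)) = ee f ⁅v, z⁆ * f (v * g) := by
        intro g
        have e1 : v * (z * g) = ⁅v, z⁆ * (z * (v * g)) := by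
          rw [commutatorElement_def]; group
        rw [e1, hV1 (comm_mem' hv z), hzf]
        rfl
      have hpow : ∀ n : ℕ, f (v * z ^ n) / f (z ^ n) = ee f ⁅v, z⁆ ^ n * (f v / f 1) := by
        intro n
        have h1 : ∀ n : ℕ, f (z ^ n) = f 1 := by
          intro n
          induction n with
          | zero => rw [pow_zero]
          | succ n ih => rw [pow_succ', hzf, ih]
        have h2 : ∀ n : ℕ, f (v * z ^ n) = ee f ⁅v, z⁆ ^ n * f v := by
          intro n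
          induction n with
          | zero => rw [pow_zero, mul_one, pow_zero, one_mul]
          | succ n ih => rw [pow_succ', hstep, ih, pow_succ', mul_assoc]
        rw [h1, h2, mul_div_assoc]
      refine circ_one (a := f v / f 1) fun n => ?_
      rw [← hpow n]
      exact hUf v hvU (z ^ n)
    intro v hv
    obtain ⟨F, hF, hF1, hF2⟩ := hzq v hv
    obtain ⟨n, hn, hnU⟩ := (hF2.and (hF1.eventually_mem hU)).exists
    have h1 : ⁅z, F n⁆ ∈ VV f := hV1 (comm_mem (hF n) z)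
    have h2 : ee f ⁅z, F n⁆ = 1 := by
      rw [← commutatorElement_inv, ee_inv (hV1 (comm_mem' (hF n) z)), hsmall _ (hF n) hnU, inv_one]
    rw [← map_pow] at hn
    have h3 := hT2 (q_eq.1 hn)
    have h4 : ⁅v, z⁆ = (⁅z, F n⁆ ^ n)⁻¹ * (⁅z, F n⁆ ^ n * ⁅z, v⁆⁻¹) := by
      rw [commutatorElement_inv]; group
    have h5 : (⁅z, F n⁆ ^ n)⁻¹ ∈ VV f := inv_mem (pow_mem h1 n)
    rw [h4, ee_mul h5, (mem_TT_iff.1 h3).2, mul_one, ee_inv (pow_mem h1 n), ee_pow h1, h2, one_pow,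
      inv_one]
  have hz1 := hz z₁ hf1 fun u hu => (hqr m u hu).1
  have hz2 := hz z₂ hf2 fun u hu => (hqr m u hu).2
  have hV : ∀ v ∈ LC G m, v ∈ VV f := by
    intro v hv
    have hstep : ∀ z, (∀ g, f (z * g) = f g) → ee f ⁅v, z⁆ = 1 → ∀ g,
        f (v * (z * g)) = f (v * g) := by
      intro z hzf hz g
      have e1 : v * (z * g) = ⁅v, z⁆ * (z * (v * g)) := by
        rw [commutatorElement_def]; group
      rw [e1, hV1 (comm_mem' hv z), hzf]
      change ee f ⁅v, z⁆ * _ = _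
      rw [hz, one_mul]
    have hM := hr {g | f (v * g) / f g = f v / f 1} ⟨1, by
      change f (v * 1) / f 1 = f v / f 1
      rw [mul_one]⟩ ⟨?_, ?_, ?_, ?_⟩
    · intro g
      have h1 : g ∈ {g | f (v * g) / f g = f v / f 1} := by rw [hM]; trivial
      have h2 : f (v * g) / f g = f v / f 1 := h1
      rw [← h2, div_mul_cancel]
    · refine isClosed_eq ?_ continuous_const
      simp only [div_eq_mul_inv]
      exact (hf.comp (continuous_const.mul continuous_id)).mul hf.inv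
    · intro g hg p hp
      change f (v * (g * p)) / f (g * p) = _
      rw [← mul_assoc, hf4 _ p hp, hf4 _ p hp, mul_div_mul_left_eq_div]
      exact hg
    · intro g hg
      have hg' : f (v * g) / f g = f v / f 1 := hg
      refine ⟨?_, ?_⟩
      · change f (v * (z₁ * g)) / f (z₁ * g) = _
        rw [hstep z₁ hf1 (hz1 v hv), hf1, hg']
      · change f (v * (z₁⁻¹ * g)) / f (z₁⁻¹ * g) = _
        rw [← hstep z₁ hf1 (hz1 v hv) (z₁⁻¹ * g), ← hf1 (z₁⁻¹ * g), mul_inv_cancel_left, hg']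
    · intro g hg
      have hg' : f (v * g) / f g = f v / f 1 := hg
      refine ⟨?_, ?_⟩
      · change f (v * (z₂ * g)) / f (z₂ * g) = _
        rw [hstep z₂ hf2 (hz2 v hv), hf2, hg']
      · change f (v * (z₂⁻¹ * g)) / f (z₂⁻¹ * g) = _
        rw [← hstep z₂ hf2 (hz2 v hv) (z₂⁻¹ * g), ← hf2 (z₂⁻¹ * g), mul_inv_cancel_left, hg']
  intro v hv
  refine ⟨hV v hv, ?_⟩
  -- the second part
  have hmul : ∀ a b : G, ⁅a, v⁆ ∈ TT f → ⁅b, v⁆ ∈ TT f → ⁅a * b, v⁆ ∈ TT f := by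
    intro a b ha hb
    have e1 : ⁅a * b, v⁆ = ⁅a, ⁅b, v⁆⁆ * ⁅b, v⁆ * ⁅a, v⁆ := by
      simp only [commutatorElement_def]; group
    rw [e1]
    exact mul_mem (mul_mem (hT2 (comm_mem (comm_mem hv b) a)) hb) ha
  have hinv : ∀ a : G, ⁅a, v⁆ ∈ TT f → ⁅a⁻¹, v⁆ ∈ TT f := by
    intro a ha
    have e1 : ⁅a⁻¹, v⁆ = (⁅a⁻¹, ⁅a, v⁆⁆ * ⁅a, v⁆)⁻¹ := by
      simp only [commutatorElement_def]; group
    rw [e1]
    exact inv_mem (mul_mem (hT2 (comm_mem (comm_mem hv a) a⁻¹)) ha)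
  have hpow : ∀ (a : G) (n : ℕ), ⁅a, v⁆ ∈ TT f → ⁅a ^ n, v⁆ ∈ TT f := by
    intro a n ha
    induction n with
    | zero =>
      have : ⁅a ^ 0, v⁆ = 1 := by rw [pow_zero]; exact commutatorElement_one_left v
      rw [this]
      exact one_mem _
    | succ n ih => rw [pow_succ]; exact hmul _ _ ih ha
  have hsm : ∀ ρ ∈ U, ⁅ρ, v⁆ ∈ TT f := by
    intro ρ hρ
    refine mem_TT_iff.2 ⟨hV1 (comm_mem hv ρ), ?_⟩
    have hstep : ∀ g, f (ρ * (v * g)) / f (v * g) = ee f ⁅ρ, v⁆ * (f (ρ * g) / f g) := by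
      intro g
      have e1 : ρ * (v * g) = ⁅ρ, v⁆ * (v * (ρ * g)) := by
        rw [commutatorElement_def]; group
      rw [e1, hV1 (comm_mem hv ρ), hV v hv (ρ * g), hV v hv g]
      change ee f ⁅ρ, v⁆ * _ / _ = _
      rw [mul_div_assoc, mul_div_mul_left_eq_div]
    have hpow' : ∀ n : ℕ, f (ρ * v ^ n) / f (v ^ n) = ee f ⁅ρ, v⁆ ^ n * (f ρ / f 1) := by
      intro n
      induction n with
      | zero => rw [pow_zero, mul_one, pow_zero, one_mul]
      | succ n ih => rw [pow_succ' v, hstep, ih, pow_succ', mul_assoc]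
    refine circ_one (a := f ρ / f 1) fun n => ?_
    rw [← hpow' n]
    exact hUf ρ hρ (v ^ n)
  intro g
  have hg : g ∈ Subgroup.closure ({z₁, z₂} ∪ {c : G | Rooted c}) := by rw [hgen]; trivial
  induction hg using Subgroup.closure_induction with
  | mem x hx =>
    have hzz : ∀ z, ee f ⁅v, z⁆ = 1 → ⁅z, v⁆ ∈ TT f := by
      intro z hz
      rw [← commutatorElement_inv]
      exact inv_mem (mem_TT_iff.2 ⟨hV1 (comm_mem' hv z), hz⟩)
    rcases hx with hx | ⟨F, hF, hF2⟩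
    · rcases hx with rfl | hx
      · exact hzz _ (hz1 v hv)
      · have hx' : x = z₂ := hx
        subst hx'
        exact hzz _ (hz2 v hv)
    · obtain ⟨n, hn, hnU⟩ := (hF2.and (hF.eventually_mem hU)).exists
      rw [← hn]
      exact hpow _ _ (hsm _ hnU)
  | one => rw [commutatorElement_one_left]; exact one_mem _
  | mul x y _ _ hx hy => exact hmul x y hx hy
  | inv x _ hx => exact hinv x hx

end main

theorem t_GP2 : S_GP2 := by
  intro hqr G _ _ _ _ Λ K hK hG z₁ z₂ hc hgen r hr f χ hf hf1 hf2 hf3 hf4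
  have hqr' := hqr G z₁ z₂ hc hgen
  have hbase : ∀ v ∈ LC G r, v ∈ VV f ∧ ∀ g : G, ⁅g, v⁆ ∈ TT f := by
    have hT : LC G (r + 1) ≤ TT f := by
      intro q hq g
      have e1 : q * g = g * (g⁻¹ * q * g⁻¹⁻¹) := by group
      rw [e1]
      exact hf3 g _ (le_PP_left Λ (r + 1) ((inferInstance : (LC G (r + 1)).Normal).conj_mem q hq g⁻¹))
    intro v hv
    refine ⟨fun g => ?_, fun g => hT (comm_mem hv g)⟩
    have h1 : ∀ g, f (v * g) = χ v * f g := by
      intro g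
      have e1 : v * g = ⁅v, g⁆ * (g * v) := by rw [commutatorElement_def]; group
      rw [e1, hT (comm_mem' hv g), hf4 g v (le_PP_left Λ r hv)]
    have h2 := h1 1
    rw [mul_one] at h2
    rw [h1 g, h2, mul_div_cancel_right]
  have hall : ∀ m, m ≤ r → ∀ v ∈ LC G (r - m), v ∈ VV f ∧ ∀ g : G, ⁅g, v⁆ ∈ TT f := by
    intro m
    induction m with
    | zero => intro _; exact hbase
    | succ m ih =>
      intro hm
      have h1 : r - m = (r - (m + 1)) + 1 := by omega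
      have h2 := ih (by omega)
      rw [h1] at h2
      exact gp2_step hK hG hgen hqr' hr hf hf1 hf2 hf3 hf4 _ h2
  have h0 := hall r le_rfl
  rw [Nat.sub_self] at h0
  have hV : ∀ v, v ∈ VV f := fun v => (h0 v (Subgroup.mem_top v)).1
  refine ⟨⟨⟨ee f, ee_one f⟩, fun a b => ee_mul (hV a) b⟩, ?_, fun v g => hV v g⟩
  change Continuous fun v => f v / f 1
  simp only [div_eq_mul_inv]
  exact hf.mul continuous_const

end Run7.h484.NL
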